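import Pool.Agent.N488.CFTree3

/-!
# A description of the Comfort–Frolik preorder
-/

set_option autoImplicit false

namespace Pool.Agent.Results.MP_254ca6_gt.Description

open Pool.Agent.R492.CF Pool.Agent.N488.CFTree

/-- `u ≤_CF v` iff `u` is principal, or `u` and `v` are isomorphic, or `v` is selective and
`u ≤_C v`. -/
theorem result (u v : βω) :
    LeCF u v ↔ Principal u ∨ (∃ e : Equiv.Perm ℕ, v.map e = u) ∨ (Selective v ∧ LeC u v) :=
  leCF_iff u v

end Pool.Agent.Results.MP_254ca6_gt.Description
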