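import Pool.Agent.N488.CFTree3

/-!
# The Comfort–Frolik preorder is tree-like iff there is no selective ultrafilter
-/

set_option autoImplicit false

namespace Pool.Agent.Results.MP_254ca6_gt.TreeLike

open Pool.Agent.R492.CF Pool.Agent.N488.CFTree

/-- **Answer to Q2.** The Comfort–Frolik preorder is tree-like if and only if there are no selective
(Ramsey) ultrafilters on `ω`. -/
theorem result : Pool.Agent.N488.CFTree.TreeLike LeCF ↔ ¬ ∃ v : βω, Selective v :=
  treeLike_iff

end Pool.Agent.Results.MP_254ca6_gt.TreeLike
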